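import Pool.Agent.helper16.LW.Spec

/-!
lw:T2B, the bound of `tr O² D₀`.
-/

set_option autoImplicit false

open Complex MeasureTheory

namespace Pool.Agent.LW

open Pool.Agent.ZD Pool.Agent.helper84.DM Pool.Agent.helper78.ED Pool.Agent.DH

theorem T2B_neg (hH : H0B_stmt) (X u : ℝ) : ‖B1 X (-u)‖ = ‖B1 X u‖ := by
  obtain ⟨_, h2, _, h4⟩ := hH
  unfold B1
  rw [h4, h2, ← map_sub, RCLike.norm_conj]

theorem T2B_kap (hK : KSM_stmt) (J : ℕ) (j : ℤ) : ∑ l ∈ IJ J, kap ((l : ℝ) - j) ≤ 5 := by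
  have h := (hK 1 ((IJ J).image (fun l => l - j)) one_pos).1
  rw [Finset.sum_image (by intro a _ b _ h; simpa using h)] at h
  refine le_trans (le_of_eq ?_) (h.trans (by norm_num))
  apply Finset.sum_congr rfl
  intro l _
  push_cast
  rw [one_mul]

theorem T2B_even (x : ℝ) : kap (-x) = kap x := by
  unfold kap
  rw [neg_sq]

theorem T2B (hS : S1B_stmt) (hH : H0B_stmt) (hK : KSM_stmt) : T2B_stmt := by
  intro ε hε
  obtain ⟨Cs, hCs, hS⟩ := hS ε hε
  obtain ⟨Ch, hCh, hh⟩ := hH.1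
  refine ⟨5 * Cs * Ch, by positivity, ?_⟩
  intro J N X a F hN hNJ hNX ha hF
  have hX : 0 ≤ X := le_trans (Nat.cast_nonneg _) hNX
  set S : ℝ := Cs * (J : ℝ) ^ ε * (X * J * N) with hSd
  have hS0 : 0 ≤ S := by positivity
  have inner : ∀ j ∈ IJ J, ∀ l ∈ IJ J,
      ∑ k ∈ IJ J, F k * (‖B1 X ((j : ℝ) - k)‖ * ‖B1 X ((k : ℝ) - l)‖) ≤ S := by
    intro j hj l hl
    have hu : ∀ u ∈ IJ J, ∑ k ∈ IJ J, F k * ‖B1 X ((u : ℝ) - k)‖ ^ 2 ≤ S := by
      intro u hu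
      refine le_trans (Finset.sum_le_sum fun k hk => ?_) (hS J N X (u : ℝ) a hN hNJ hNX ?_ ha)
      · exact mul_le_mul_of_nonneg_right (hF k hk).2 (by positivity)
      · unfold IJ at hu
        rw [Finset.mem_Ioo] at hu
        rw [abs_le]
        exact ⟨by exact_mod_cast hu.1.le, by exact_mod_cast hu.2.le⟩
    calc ∑ k ∈ IJ J, F k * (‖B1 X ((j : ℝ) - k)‖ * ‖B1 X ((k : ℝ) - l)‖)
        ≤ ∑ k ∈ IJ J, (F k * ‖B1 X ((j : ℝ) - k)‖ ^ 2 / 2 +
            F k * ‖B1 X ((l : ℝ) - k)‖ ^ 2 / 2) := by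
          apply Finset.sum_le_sum
          intro k hk
          have h1 : ‖B1 X ((k : ℝ) - l)‖ = ‖B1 X ((l : ℝ) - k)‖ := by
            rw [← T2B_neg hH X ((l : ℝ) - k)]
            congr 2
            ring
          rw [h1]
          have := hF k hk
          nlinarith [mul_nonneg this.1
            (sq_nonneg (‖B1 X ((j : ℝ) - k)‖ - ‖B1 X ((l : ℝ) - k)‖))]
      _ = (∑ k ∈ IJ J, F k * ‖B1 X ((j : ℝ) - k)‖ ^ 2) / 2 +
            (∑ k ∈ IJ J, F k * ‖B1 X ((l : ℝ) - k)‖ ^ 2) / 2 := by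
          rw [Finset.sum_add_distrib, Finset.sum_div, Finset.sum_div]
      _ ≤ S := by linarith [hu j hj, hu l hl]
  have hh1 : ∀ j : ℤ, ∑ l ∈ IJ J, ‖h0 X ((l : ℝ) - j)‖ ≤ 5 * (Ch * X) := by
    intro j
    calc ∑ l ∈ IJ J, ‖h0 X ((l : ℝ) - j)‖ ≤ ∑ l ∈ IJ J, Ch * X * kap ((l : ℝ) - j) :=
          Finset.sum_le_sum fun l _ => hh X _ hX
      _ = Ch * X * ∑ l ∈ IJ J, kap ((l : ℝ) - j) := by rw [Finset.mul_sum]
      _ ≤ Ch * X * 5 := by
          have := T2B_kap hK J j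
          gcongr
      _ = 5 * (Ch * X) := by ring
  have hsym : ∀ j l : ℤ, ‖h0 X ((l : ℝ) - j)‖ = ‖h0 X ((j : ℝ) - l)‖ := by
    intro j l
    have := hH.2.1 X ((j : ℝ) - l)
    rw [neg_sub] at this
    rw [this, RCLike.norm_conj]
  have outer : ∑ j ∈ IJ J, ∑ l ∈ IJ J, F j * F l * ‖h0 X ((l : ℝ) - j)‖ ≤
      5 * (Ch * X) * ∑ j ∈ IJ J, F j ^ 2 := by
    calc ∑ j ∈ IJ J, ∑ l ∈ IJ J, F j * F l * ‖h0 X ((l : ℝ) - j)‖
        ≤ ∑ j ∈ IJ J, ∑ l ∈ IJ J, (F j ^ 2 / 2 * ‖h0 X ((l : ℝ) - j)‖ +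
            F l ^ 2 / 2 * ‖h0 X ((j : ℝ) - l)‖) := by
          apply Finset.sum_le_sum
          intro j _
          apply Finset.sum_le_sum
          intro l _
          rw [← hsym j l, ← add_mul]
          apply mul_le_mul_of_nonneg_right _ (norm_nonneg _)
          nlinarith [sq_nonneg (F j - F l)]
      _ = ∑ j ∈ IJ J, F j ^ 2 / 2 * ∑ l ∈ IJ J, ‖h0 X ((l : ℝ) - j)‖ +
            ∑ l ∈ IJ J, F l ^ 2 / 2 * ∑ j ∈ IJ J, ‖h0 X ((j : ℝ) - l)‖ := by
          simp only [Finset.sum_add_distrib]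
          congr 1
          · apply Finset.sum_congr rfl
            intro j _
            rw [Finset.mul_sum]
          · rw [Finset.sum_comm]
            apply Finset.sum_congr rfl
            intro j _
            rw [Finset.mul_sum]
      _ ≤ ∑ j ∈ IJ J, F j ^ 2 / 2 * (5 * (Ch * X)) + ∑ l ∈ IJ J, F l ^ 2 / 2 * (5 * (Ch * X)) := by
          apply add_le_add
          · apply Finset.sum_le_sum
            intro j _
            exact mul_le_mul_of_nonneg_left (hh1 j) (by positivity)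
          · apply Finset.sum_le_sum
            intro j _
            exact mul_le_mul_of_nonneg_left (hh1 j) (by positivity)
      _ = 5 * (Ch * X) * ∑ j ∈ IJ J, F j ^ 2 := by
          rw [← Finset.sum_mul, ← Finset.sum_div]
          ring
  unfold T2
  calc ‖∑ j ∈ IJ J, ∑ k ∈ IJ J, ∑ l ∈ IJ J, ((F j * F k * F l : ℝ) : ℂ) *
        (B1 X ((j : ℝ) - k) * B1 X ((k : ℝ) - l) * h0 X ((l : ℝ) - j))‖
      ≤ ∑ j ∈ IJ J, ∑ k ∈ IJ J, ∑ l ∈ IJ J, (F j * F l * ‖h0 X ((l : ℝ) - j)‖) *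
          (F k * (‖B1 X ((j : ℝ) - k)‖ * ‖B1 X ((k : ℝ) - l)‖)) := by
        refine (norm_sum_le _ _).trans (Finset.sum_le_sum fun j hj => ?_)
        refine (norm_sum_le _ _).trans (Finset.sum_le_sum fun k hk => ?_)
        refine (norm_sum_le _ _).trans (Finset.sum_le_sum fun l hl => ?_)
        rw [norm_mul, norm_mul, norm_mul, Complex.norm_real, Real.norm_of_nonneg
          (mul_nonneg (mul_nonneg (hF j hj).1 (hF k hk).1) (hF l hl).1)]
        apply le_of_eq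
        ring
    _ = ∑ j ∈ IJ J, ∑ l ∈ IJ J, (F j * F l * ‖h0 X ((l : ℝ) - j)‖) *
          ∑ k ∈ IJ J, F k * (‖B1 X ((j : ℝ) - k)‖ * ‖B1 X ((k : ℝ) - l)‖) := by
        apply Finset.sum_congr rfl
        intro j _
        rw [Finset.sum_comm]
        apply Finset.sum_congr rfl
        intro l _
        rw [Finset.mul_sum]
    _ ≤ ∑ j ∈ IJ J, ∑ l ∈ IJ J, (F j * F l * ‖h0 X ((l : ℝ) - j)‖) * S := by
        apply Finset.sum_le_sum
        intro j hj
        apply Finset.sum_le_sum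
        intro l hl
        exact mul_le_mul_of_nonneg_left (inner j hj l hl)
          (mul_nonneg (mul_nonneg (hF j hj).1 (hF l hl).1) (norm_nonneg _))
    _ = (∑ j ∈ IJ J, ∑ l ∈ IJ J, F j * F l * ‖h0 X ((l : ℝ) - j)‖) * S := by
        simp only [Finset.sum_mul]
    _ ≤ 5 * (Ch * X) * (∑ j ∈ IJ J, F j ^ 2) * S := mul_le_mul_of_nonneg_right outer hS0
    _ = 5 * Cs * Ch * (J : ℝ) ^ ε * (X ^ 2 * J * N) * ∑ j ∈ IJ J, F j ^ 2 := by
        rw [hSd]
        ring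

end Pool.Agent.LW
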